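import Pool.Agent.H61.THC.MTa
import Pool.Agent.H29.TC.Targets

/-!
# Integrals of theta functions of two unimodular lattices with two parameters
-/

set_option autoImplicit false

open MeasureTheory Set Filter Module
open scoped Matrix RealInnerProductSpace ENNReal

namespace Pool.Agent.H61.THC

open Pool.Agent.H25.HK Pool.Agent.H23.LB Pool.Agent.H61.MV Pool.Agent.H61.GLA Pool.Agent.H29.TC

/-- (MT) -/
theorem pf_MT : T_MT := by
  intro n hn
  refine ⟨3, fun κ hκ hκ1 => ?_⟩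
  set G := cG n κ with hG
  have hG0 : 0 < G := cG_pos n hn κ hκ
  set D := 1 + κ * (κ + 1) * G with hD
  have hD1 : 1 ≤ D := by
    have : 0 < κ * (κ + 1) * G := by positivity
    linarith
  have hC3 := one_le_C3 n (1 + κ)
  have hCs : 0 ≤ Cs n κ D := by
    unfold Cs
    positivity
  refine ⟨(C3 n (1 + κ) * (2 / κ) + Cs n κ D * (2 / κ)) / G, ?_⟩
  intro ι _ _ P Q hP hQ hdP hdQ hι β β' b hβ hβ' hb hb1
  have hne : Nonempty ι := by
    rw [← Fintype.card_pos_iff, hι]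
    exact hn
  obtain ⟨A, hA0, hA, rfl⟩ := root P hP hdP
  obtain ⟨B, hB0, hB, rfl⟩ := root Q hQ hdQ
  have hdA := det_dm_ne hA0
  have hdB := det_dm_ne hB0
  rw [inv_eq, inv_eq]
  have aA := AF_eq κ hκ A hA0
  have aA' := AF_eq κ hκ (dm A) hdA
  have aB := AF_eq κ hκ B hB0
  have aB' := AF_eq κ hκ (dm B) hdB
  have lA := pf_LF' κ hκ A hA
  have lB := pf_LF' κ hκ B hB
  rw [hι, ← hG] at aA aA' aB aB'
  rw [aA] at lA
  rw [aB] at lB
  rw [aA, aA', aB, aB']
  set σ := 1 + κ with hσ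
  have hσ1 : 1 < σ := by linarith
  have pA := Ep_nonneg σ A
  have pA' := Ep_nonneg σ (dm A)
  have pB := Ep_nonneg σ B
  have pB' := Ep_nonneg σ (dm B)
  set EP := Ep σ A + Ep σ (dm A) with hEP
  set EQ := Ep σ B + Ep σ (dm B) with hEQ
  have key : ∀ E E' : ℝ, 0 ≤ E → 0 ≤ E' → 1 / (κ * (κ + 1)) ≤ G * E → 1 ≤ D * (E + E') := by
    intro E E' h0 h0' h
    rw [div_le_iff₀ (by positivity)] at h
    have h1 : G * E * (κ * (κ + 1)) = κ * (κ + 1) * G * E := by ring
    have h2 : 0 ≤ κ * (κ + 1) * G * E' := by positivity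
    rw [hD]
    nlinarith
  have hEP1 : 1 ≤ D * EP := key _ _ pA pA' lA
  have hEQ1 : 1 ≤ D * EQ := key _ _ pB pB' lB
  have hEP0 : 0 ≤ EP := by linarith
  have hEQ0 : 0 ≤ EQ := by linarith
  have hbβ := mul_pos hb hβ
  have hbβ' := mul_pos hb hβ'
  -- the single integral
  have hbp : (b * β) ^ (-σ) ≤ b ^ (-3 : ℝ) * β ^ (-σ) := by
    rw [Real.mul_rpow hb.le hβ.le]
    refine mul_le_mul_of_nonneg_right ?_ (Real.rpow_nonneg hβ.le _)
    exact Real.rpow_le_rpow_of_exponent_ge hb hb1 (by linarith)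
  have hJ := J1 κ hκ A hA0 (b * β) hbβ
  rw [hι] at hJ
  have hJ2 : ∫ t in Ioi (1 : ℝ), gt A (b * β * t) * t ^ (κ / 2) ≤
      C3 n σ * (2 / κ) * (b ^ (-3 : ℝ) * β ^ (-σ) * Ep σ A) := by
    refine hJ.2.trans (mul_le_mul_of_nonneg_left ?_ (by positivity))
    exact mul_le_mul_of_nonneg_right hbp pA
  have e1 : ∀ T : ℝ, (Fs (A.transpose * A) (T * b * β) - 1) * T ^ (κ / 2) =
      gt A (b * β * T) * T ^ (κ / 2) := by
    intro T
    rw [Fs_par, add_sub_cancel_right]
  constructor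
  · simp only [e1]
    refine ⟨hJ.1, hJ2.trans ?_⟩
    have h3 : 0 ≤ b ^ (-3 : ℝ) * β ^ (-σ) * Ep σ A := by positivity
    have h4 : (C3 n σ * (2 / κ) + Cs n κ D * (2 / κ)) / G * b ^ (-3 : ℝ) * β ^ (-σ) *
        (G * Ep σ A) = (C3 n σ * (2 / κ) + Cs n κ D * (2 / κ)) *
          (b ^ (-3 : ℝ) * β ^ (-σ) * Ep σ A) := by
      field_simp
    rw [h4]
    refine mul_le_mul_of_nonneg_right ?_ h3
    have : 0 ≤ Cs n κ D * (2 / κ) := by positivity
    linarith
  · set hh : ℝ := (β ^ (-2 : ℝ) + β⁻¹) with hhd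
    set hh' : ℝ := (β' ^ (-2 : ℝ) + β'⁻¹) with hhd'
    have hh0 : 0 < hh := by positivity
    have hh0' : 0 < hh' := by positivity
    set KP := Cs n κ D * EP * (b ^ (-3 : ℝ) * (hh * β ^ (-κ))) with hKP
    set KQ := Cs n κ D * EQ * (b ^ (-3 : ℝ) * (hh' * β' ^ (-κ))) with hKQ
    have hKP0 : 0 ≤ KP := by positivity
    have hKQ0 : 0 ≤ KQ := by positivity
    have hpt : ∀ T ∈ Ioi (1 : ℝ), gt A (b * β * T) * gt B (b * β' * T) * T ^ (κ / 2) ≤
        Real.sqrt (KP * KQ) * T ^ (-1 - κ / 2) := by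
      intro T hT
      have hT1 : (1 : ℝ) ≤ T := le_of_lt hT
      have hT0 : (0 : ℝ) < T := by linarith
      have h3 := gt_pt κ hκ hκ1 A hA EP D hD1 hEP1 (by linarith) (by linarith) b β T hb hb1 hβ hT1
      have h4 := gt_pt κ hκ hκ1 B hB EQ D hD1 hEQ1 (by linarith) (by linarith) b β' T hb hb1
        hβ' hT1
      rw [hι, ← hhd, ← hKP] at h3
      rw [hι, ← hhd', ← hKQ] at h4
      have gA := gt_nonneg A hA0 (b * β * T) (mul_pos hbβ hT0)
      have gB := gt_nonneg B hB0 (b * β' * T) (mul_pos hbβ' hT0)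
      have h5 : gt A (b * β * T) * gt B (b * β' * T) ≤ Real.sqrt (KP * KQ) * T ^ (-(1 + κ)) := by
        refine (abs_le_of_sq_le_sq' (a := _) ?_ (by positivity)).2
        rw [mul_pow, mul_pow, Real.sq_sqrt (by positivity)]
        refine (mul_le_mul h3 h4 (by positivity) (by positivity)).trans (le_of_eq ?_)
        ring
      have h6 := mul_le_mul_of_nonneg_right h5 (Real.rpow_nonneg hT0.le (κ / 2))
      refine h6.trans (le_of_eq ?_)
      rw [mul_assoc, ← Real.rpow_add hT0]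
      congr 2
      ring
    have hr := int_rpow (-1 - κ / 2) (by linarith)
    have hnn : ∀ T ∈ Ioi (1 : ℝ), 0 ≤ gt A (b * β * T) * gt B (b * β' * T) * T ^ (κ / 2) := by
      intro T hT
      have hT0 : (0 : ℝ) < T := lt_trans one_pos hT
      exact mul_nonneg (mul_nonneg (gt_nonneg A hA0 _ (mul_pos hbβ hT0))
        (gt_nonneg B hB0 _ (mul_pos hbβ' hT0))) (Real.rpow_nonneg hT0.le _)
    have hI : IntegrableOn (fun T => gt A (b * β * T) * gt B (b * β' * T) * T ^ (κ / 2))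
        (Ioi 1) := by
      refine Integrable.mono' (hr.1.const_mul (Real.sqrt (KP * KQ)))
        (((gt_meas A hA0 _ hbβ).mul (gt_meas B hB0 _ hbβ')).mul (rpow_meas _)) ?_
      refine (ae_restrict_iff' measurableSet_Ioi).mpr (Eventually.of_forall fun T hT => ?_)
      rw [Real.norm_of_nonneg (hnn T hT)]
      exact hpt T hT
    have hI2 : ∫ T in Ioi (1 : ℝ), gt A (b * β * T) * gt B (b * β' * T) * T ^ (κ / 2) ≤
        Real.sqrt (KP * KQ) * (2 / κ) := by
      refine (setIntegral_mono_on hI (hr.1.const_mul _) measurableSet_Ioi hpt).trans ?_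
      rw [integral_const_mul, hr.2]
      have e : 1 / (-1 - (-1 - κ / 2)) = 2 / κ := by
        have e0 : -1 - (-1 - κ / 2) = κ / 2 := by ring
        rw [e0]
        field_simp
      rw [e]
    have e2 : ∀ T : ℝ, (Fs (A.transpose * A) (T * b * β) - 1) *
        Fs (B.transpose * B) (T * b * β') * T ^ (κ / 2) =
        gt A (b * β * T) * gt B (b * β' * T) * T ^ (κ / 2) +
          gt A (b * β * T) * T ^ (κ / 2) := by
      intro T
      rw [Fs_par, Fs_par, add_sub_cancel_right]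
      ring
    simp only [e2]
    refine ⟨hI.add hJ.1, ?_⟩
    rw [integral_add hI hJ.1]
    have h3 : Real.sqrt (KP * KQ) ≤ Cs n κ D * (b ^ (-3 : ℝ) * ((β * β') ^ (-(κ / 2)) *
        Real.sqrt (hh * hh'))) * (EP + EQ) := by
      have e3 : KP * KQ = (Cs n κ D * b ^ (-3 : ℝ)) ^ 2 * ((hh * hh') *
          (((β * β') ^ (-(κ / 2))) ^ 2 * (EP * EQ))) := by
        have e4 : ((β * β') ^ (-(κ / 2))) ^ 2 = β ^ (-κ) * β' ^ (-κ) := by
          rw [← Real.rpow_natCast, ← Real.rpow_mul (by positivity), Real.mul_rpow hβ.le hβ'.le]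
          congr 2 <;> (push_cast; ring)
        rw [e4, hKP, hKQ]
        ring
      rw [e3, Real.sqrt_mul (by positivity), Real.sqrt_sq (by positivity),
        Real.sqrt_mul (by positivity), Real.sqrt_mul (by positivity) (EP * EQ),
        Real.sqrt_sq (by positivity)]
      have h4 : Real.sqrt (EP * EQ) ≤ EP + EQ := by
        refine Real.sqrt_le_iff.mpr ⟨by linarith, ?_⟩
        nlinarith
      have h5 : 0 ≤ Cs n κ D * (b ^ (-3 : ℝ) * ((β * β') ^ (-(κ / 2)) *
        Real.sqrt (hh * hh'))) := by positivity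
      have h6 := mul_le_mul_of_nonneg_left h4 h5
      refine le_trans (le_of_eq ?_) h6
      ring
    have hS : 0 ≤ (β * β') ^ (-(κ / 2)) * Real.sqrt (hh * hh') := by positivity
    set S := (β * β') ^ (-(κ / 2)) * Real.sqrt (hh * hh') with hSd
    have hF : (C3 n σ * (2 / κ) + Cs n κ D * (2 / κ)) / G * b ^ (-3 : ℝ) * (β ^ (-σ) + S) *
        (G * Ep σ A + G * Ep σ (dm A) + (G * Ep σ B + G * Ep σ (dm B))) =
        (C3 n σ * (2 / κ) + Cs n κ D * (2 / κ)) * (b ^ (-3 : ℝ) * ((β ^ (-σ) + S) *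
          (EP + EQ))) := by
      rw [hEP, hEQ]
      field_simp
    rw [hF]
    have b3 : 0 < b ^ (-3 : ℝ) := Real.rpow_pos_of_pos hb _
    have bs : 0 < β ^ (-σ) := Real.rpow_pos_of_pos hβ _
    have t1 : ∫ T in Ioi (1 : ℝ), gt A (b * β * T) * gt B (b * β' * T) * T ^ (κ / 2) ≤
        Cs n κ D * (2 / κ) * (b ^ (-3 : ℝ) * ((β ^ (-σ) + S) * (EP + EQ))) := by
      refine hI2.trans ((mul_le_mul_of_nonneg_right h3 (by positivity)).trans ?_)
      have e5 : Cs n κ D * (b ^ (-3 : ℝ) * S) * (EP + EQ) * (2 / κ) =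
          Cs n κ D * (2 / κ) * (b ^ (-3 : ℝ) * (S * (EP + EQ))) := by ring
      rw [e5]
      refine mul_le_mul_of_nonneg_left ?_ (by positivity)
      refine mul_le_mul_of_nonneg_left ?_ b3.le
      refine mul_le_mul_of_nonneg_right ?_ (by linarith)
      linarith
    have t2 : ∫ T in Ioi (1 : ℝ), gt A (b * β * T) * T ^ (κ / 2) ≤
        C3 n σ * (2 / κ) * (b ^ (-3 : ℝ) * ((β ^ (-σ) + S) * (EP + EQ))) := by
      refine hJ2.trans (mul_le_mul_of_nonneg_left ?_ (by positivity))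
      rw [mul_assoc]
      refine mul_le_mul_of_nonneg_left ?_ b3.le
      refine mul_le_mul (by linarith) (by linarith) pA (by positivity)
    linarith

end Pool.Agent.H61.THC
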