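import Pool.Agent.H61.GLA.MSa

/-!
# A bound for the square of the theta function
-/

set_option autoImplicit false

open MeasureTheory Set Filter Module
open scoped Matrix RealInnerProductSpace ENNReal

namespace Pool.Agent.H61.THC

open Pool.Agent.H25.HK Pool.Agent.H23.LB Pool.Agent.H61.MV Pool.Agent.H61.GLA

variable {ι : Type} [Fintype ι] [DecidableEq ι]

/-- the constant in `gt_sq` -/
noncomputable def Cs (m : ℕ) (κ D : ℝ) : ℝ := 9 * (Ct m * D) ^ 2 + C3 m (1 + κ) ^ 2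

lemma gt_sq [Nonempty ι] (κ : ℝ) (hκ : 0 < κ) (A : Matrix ι ι ℝ) (hA : |A.det| = 1) (E D : ℝ)
    (hD : 1 ≤ D) (hE : 1 ≤ D * E) (h1 : Ep (1 + κ) A ≤ E) (h2 : Ep (1 + κ) (dm A) ≤ E)
    (t : ℝ) (ht : 0 < t) :
    gt A t ^ 2 ≤ Cs (Fintype.card ι) κ D * E * ((t ^ (-2 : ℝ) + t⁻¹) * t ^ (-κ)) := by
  have hA' : A.det ≠ 0 := by
    intro h
    rw [h] at hA
    simp at hA
  set σ := 1 + κ with hσ
  have hσ1 : 1 < σ := by linarith
  set m := Fintype.card ι with hm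
  have hCt := Ct_pos m
  have hC3 := one_le_C3 m σ
  have hD0 : 0 < D := by linarith
  have hE0 : 0 < E := by
    by_contra h
    push Not at h
    nlinarith
  have hdA := det_dm_ne hA'
  set a := 1 / (2 * σ) with ha
  have ha0 : 0 < a := by positivity
  have ha1 : a ≤ 1 := by
    rw [ha, div_le_one (by positivity)]
    linarith
  have hl := l1_half σ hσ1 A hA' E h1
  have hl' := l1_half σ hσ1 (dm A) hdA E h2
  have hEa : 0 < E ^ a := Real.rpow_pos_of_pos hE0 _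
  have hal : al A ≤ 2 * E ^ a := by
    unfold al
    rw [hA, div_one]
    linarith
  have hal0 := al_nonneg A
  have hg0 := gt_nonneg A hA' t ht
  have hB1 := gt_B1 poi A hA' t ht
  rw [hA, div_one] at hB1
  have hti : 0 < t⁻¹ := inv_pos.mpr ht
  have hth : 0 < t ^ (-(1 / 2 : ℝ)) := Real.rpow_pos_of_pos ht _
  have hth2 : t ^ (-(1 / 2 : ℝ)) * t ^ (-(1 / 2 : ℝ)) = t⁻¹ := by
    rw [← Real.rpow_add ht, ← Real.rpow_neg_one]
    norm_num
  have ht2 : t ^ (-2 : ℝ) = t⁻¹ * t⁻¹ := by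
    rw [← Real.rpow_neg_one, ← Real.rpow_add ht]
    norm_num
  have hEa2 : E ^ a * E ^ a ≤ D * E := by
    rw [← Real.rpow_add hE0]
    refine rpow_le_mul D E (a + a) hD hE (by positivity) ?_
    rw [ha]
    have : 1 / (2 * σ) + 1 / (2 * σ) = 1 / σ := by field_simp; norm_num
    rw [this, div_le_one (by linarith)]
    exact hσ1.le
  have hCs : Cs m κ D = 9 * (Ct m * D) ^ 2 + C3 m σ ^ 2 := rfl
  rcases le_total t 1 with h | h
  · have h3 : gt A t ≤ Ct m * (t⁻¹ + t ^ (-(1 / 2 : ℝ)) * (2 * E ^ a)) := by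
      refine hB1.trans (mul_le_mul_of_nonneg_left ?_ hCt.le)
      have := mul_le_mul_of_nonneg_left hal hth.le
      linarith
    have h4 : gt A t ^ 2 ≤ (Ct m * (t⁻¹ + t ^ (-(1 / 2 : ℝ)) * (2 * E ^ a))) ^ 2 :=
      pow_le_pow_left₀ hg0 h3 2
    have h5 : (t⁻¹ + t ^ (-(1 / 2 : ℝ)) * (2 * E ^ a)) ^ 2 ≤
        2 * (t⁻¹ * t⁻¹) + 8 * (t⁻¹ * (E ^ a * E ^ a)) := by
      have h6 := sq_nonneg (t⁻¹ - t ^ (-(1 / 2 : ℝ)) * (2 * E ^ a))
      have h7 : (t ^ (-(1 / 2 : ℝ)) * (2 * E ^ a)) ^ 2 = 4 * (t⁻¹ * (E ^ a * E ^ a)) := by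
        rw [← hth2]
        ring
      nlinarith
    have h8 : (1 : ℝ) ≤ t ^ (-κ) := Real.one_le_rpow_of_pos_of_le_one_of_nonpos ht h (by linarith)
    have h9 : 2 * (t⁻¹ * t⁻¹) + 8 * (t⁻¹ * (E ^ a * E ^ a)) ≤ 8 * (D * E) * (t⁻¹ * t⁻¹ + t⁻¹) := by
      have h10 : t⁻¹ * (E ^ a * E ^ a) ≤ t⁻¹ * (D * E) := mul_le_mul_of_nonneg_left hEa2 hti.le
      have h11 : t⁻¹ * t⁻¹ * 1 ≤ t⁻¹ * t⁻¹ * (D * E) :=
        mul_le_mul_of_nonneg_left hE (by positivity)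
      nlinarith
    rw [hCs, ht2]
    have h12 : gt A t ^ 2 ≤ Ct m ^ 2 * (8 * (D * E) * (t⁻¹ * t⁻¹ + t⁻¹)) := by
      refine h4.trans ?_
      rw [mul_pow]
      exact mul_le_mul_of_nonneg_left (h5.trans h9) (by positivity)
    have h13 : Ct m ^ 2 * (8 * (D * E) * (t⁻¹ * t⁻¹ + t⁻¹)) ≤
        (9 * (Ct m * D) ^ 2 + C3 m σ ^ 2) * E * ((t⁻¹ * t⁻¹ + t⁻¹)) := by
      have h14 : Ct m ^ 2 * (8 * D) ≤ 9 * (Ct m * D) ^ 2 + C3 m σ ^ 2 := by
        have : Ct m ^ 2 * D ≤ Ct m ^ 2 * D ^ 2 := by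
          refine mul_le_mul_of_nonneg_left ?_ (by positivity)
          nlinarith
        nlinarith [sq_nonneg (C3 m σ), sq_nonneg (Ct m * D)]
      have := mul_le_mul_of_nonneg_right h14 (by positivity : 0 ≤ E * (t⁻¹ * t⁻¹ + t⁻¹))
      linarith
    refine h12.trans (h13.trans ?_)
    refine mul_le_mul_of_nonneg_left ?_ (by positivity)
    nlinarith [mul_pos hti hti]
  · set w := t ^ (-σ) * E with hw
    have hw0 : 0 < w := mul_pos (Real.rpow_pos_of_pos ht _) hE0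
    have h3 : gt A t ≤ C3 m σ * w := by
      refine (gt_B3 σ hσ1 A hA' t ht).trans ?_
      refine mul_le_mul_of_nonneg_left ?_ (by linarith)
      exact mul_le_mul_of_nonneg_left h1 (Real.rpow_nonneg ht.le _)
    have h4 : gt A t ≤ 3 * (Ct m * D) * w ^ a := by
      have e1 : w ^ a = t ^ (-(1 / 2 : ℝ)) * E ^ a := by
        rw [hw, Real.mul_rpow (by positivity) hE0.le, ← Real.rpow_mul ht.le]
        congr 2
        rw [ha]
        field_simp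
      rw [e1]
      have h5 : t⁻¹ ≤ t ^ (-(1 / 2 : ℝ)) := by
        rw [← Real.rpow_neg_one]
        exact Real.rpow_le_rpow_of_exponent_le h (by norm_num)
      have h6 : 1 ≤ D * E ^ a := by
        have h7 : 1 ≤ (D * E) ^ a := Real.one_le_rpow hE ha0.le
        rw [Real.mul_rpow hD0.le hE0.le] at h7
        have h8 : D ^ a ≤ D := by
          have := Real.rpow_le_rpow_of_exponent_le hD ha1
          rwa [Real.rpow_one] at this
        nlinarith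
      have h7 : t⁻¹ + t ^ (-(1 / 2 : ℝ)) * al A ≤ 3 * D * (t ^ (-(1 / 2 : ℝ)) * E ^ a) := by
        have h8 : t ^ (-(1 / 2 : ℝ)) * al A ≤ t ^ (-(1 / 2 : ℝ)) * (2 * E ^ a) :=
          mul_le_mul_of_nonneg_left hal hth.le
        have h9 : t⁻¹ ≤ t ^ (-(1 / 2 : ℝ)) * (D * E ^ a) := by nlinarith
        have h10 : t ^ (-(1 / 2 : ℝ)) * (2 * E ^ a) ≤ t ^ (-(1 / 2 : ℝ)) * (2 * (D * E ^ a)) := by
          refine mul_le_mul_of_nonneg_left ?_ hth.le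
          nlinarith
        nlinarith
      refine hB1.trans ((mul_le_mul_of_nonneg_left h7 hCt.le).trans (le_of_eq ?_))
      ring
    have h5 : gt A t ^ 2 ≤ Cs m κ D * w := by
      rw [hCs]
      rcases le_total w 1 with h6 | h6
      · have h7 : gt A t ^ 2 ≤ (C3 m σ * w) ^ 2 := pow_le_pow_left₀ hg0 h3 2
        have h8 : (C3 m σ * w) ^ 2 ≤ C3 m σ ^ 2 * w := by
          rw [mul_pow]
          refine mul_le_mul_of_nonneg_left ?_ (by positivity)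
          nlinarith
        nlinarith [mul_nonneg (sq_nonneg (Ct m * D)) hw0.le]
      · have h7 : gt A t ^ 2 ≤ (3 * (Ct m * D) * w ^ a) ^ 2 := pow_le_pow_left₀ hg0 h4 2
        have h8 : w ^ a * w ^ a ≤ w := by
          rw [← Real.rpow_add hw0]
          have h9 : a + a ≤ 1 := by
            rw [ha]
            have : 1 / (2 * σ) + 1 / (2 * σ) = 1 / σ := by field_simp; norm_num
            rw [this, div_le_one (by linarith)]
            exact hσ1.le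
          have := Real.rpow_le_rpow_of_exponent_le h6 h9
          rwa [Real.rpow_one] at this
        have h9 : (3 * (Ct m * D) * w ^ a) ^ 2 = 9 * (Ct m * D) ^ 2 * (w ^ a * w ^ a) := by ring
        rw [h9] at h7
        have h10 := mul_le_mul_of_nonneg_left h8 (by positivity : 0 ≤ 9 * (Ct m * D) ^ 2)
        nlinarith [mul_nonneg (sq_nonneg (C3 m σ)) hw0.le]
    refine h5.trans ?_
    have hC : 0 ≤ Cs m κ D := by
      rw [hCs]
      positivity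
    rw [mul_assoc]
    refine mul_le_mul_of_nonneg_left ?_ hC
    have e2 : w = E * (t⁻¹ * t ^ (-κ)) := by
      rw [hw, hσ, ← Real.rpow_neg_one, ← Real.rpow_add ht, mul_comm]
      congr 2
      ring
    rw [e2]
    refine mul_le_mul_of_nonneg_left ?_ hE0.le
    refine mul_le_mul_of_nonneg_right ?_ (Real.rpow_nonneg ht.le _)
    have : 0 < t ^ (-2 : ℝ) := Real.rpow_pos_of_pos ht _
    linarith

/-- the pointwise bound for `T ≥ 1` -/
lemma gt_pt [Nonempty ι] (κ : ℝ) (hκ : 0 < κ) (hκ1 : κ ≤ 1) (A : Matrix ι ι ℝ)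
    (hA : |A.det| = 1) (E D : ℝ)
    (hD : 1 ≤ D) (hE : 1 ≤ D * E) (h1 : Ep (1 + κ) A ≤ E) (h2 : Ep (1 + κ) (dm A) ≤ E)
    (b β T : ℝ) (hb : 0 < b) (hb1 : b ≤ 1) (hβ : 0 < β) (hT : 1 ≤ T) :
    gt A (b * β * T) ^ 2 ≤ (Cs (Fintype.card ι) κ D * E * (b ^ (-3 : ℝ) *
      ((β ^ (-2 : ℝ) + β⁻¹) * β ^ (-κ)))) * T ^ (-(1 + κ)) := by
  have hT0 : 0 < T := by linarith
  have hbβ := mul_pos hb hβ
  refine (gt_sq κ hκ A hA E D hD hE h1 h2 (b * β * T) (mul_pos hbβ hT0)).trans ?_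
  have hE0 : 0 < E := by
    by_contra h
    push Not at h
    nlinarith
  have hC : 0 ≤ Cs (Fintype.card ι) κ D := by
    unfold Cs
    positivity
  rw [mul_assoc (Cs (Fintype.card ι) κ D * E)]
  refine mul_le_mul_of_nonneg_left ?_ (mul_nonneg hC hE0.le)
  have e1 : (b * β * T) ^ (-κ) = b ^ (-κ) * β ^ (-κ) * T ^ (-κ) := by
    rw [Real.mul_rpow hbβ.le hT0.le, Real.mul_rpow hb.le hβ.le]
  have e2 : (b * β * T) ^ (-2 : ℝ) = b ^ (-2 : ℝ) * β ^ (-2 : ℝ) * T ^ (-2 : ℝ) := by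
    rw [Real.mul_rpow hbβ.le hT0.le, Real.mul_rpow hb.le hβ.le]
  have e3 : (b * β * T)⁻¹ = b⁻¹ * β⁻¹ * T⁻¹ := by
    rw [mul_inv, mul_inv]
  rw [e1, e2, e3]
  have i1 : T ^ (-2 : ℝ) ≤ T⁻¹ := by
    rw [← Real.rpow_neg_one]
    exact Real.rpow_le_rpow_of_exponent_le hT (by norm_num)
  have i2 : b⁻¹ ≤ b ^ (-2 : ℝ) := by
    rw [← Real.rpow_neg_one]
    exact Real.rpow_le_rpow_of_exponent_ge hb hb1 (by norm_num)
  have p1 : 0 < b ^ (-2 : ℝ) := Real.rpow_pos_of_pos hb _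
  have p2 : 0 < β ^ (-2 : ℝ) := Real.rpow_pos_of_pos hβ _
  have p3 : 0 < T ^ (-2 : ℝ) := Real.rpow_pos_of_pos hT0 _
  have p4 : 0 < T⁻¹ := inv_pos.mpr hT0
  have p5 : 0 < β⁻¹ := inv_pos.mpr hβ
  have p6 : 0 < b⁻¹ := inv_pos.mpr hb
  have i3 : b ^ (-2 : ℝ) * β ^ (-2 : ℝ) * T ^ (-2 : ℝ) + b⁻¹ * β⁻¹ * T⁻¹ ≤
      b ^ (-2 : ℝ) * ((β ^ (-2 : ℝ) + β⁻¹) * T⁻¹) := by
    have j1 : b ^ (-2 : ℝ) * β ^ (-2 : ℝ) * T ^ (-2 : ℝ) ≤ b ^ (-2 : ℝ) * β ^ (-2 : ℝ) * T⁻¹ :=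
      mul_le_mul_of_nonneg_left i1 (by positivity)
    have j2 : b⁻¹ * (β⁻¹ * T⁻¹) ≤ b ^ (-2 : ℝ) * (β⁻¹ * T⁻¹) :=
      mul_le_mul_of_nonneg_right i2 (by positivity)
    nlinarith
  have i4 : b ^ (-κ) ≤ b⁻¹ := by
    rw [← Real.rpow_neg_one]
    exact Real.rpow_le_rpow_of_exponent_ge hb hb1 (by linarith)
  have q1 : 0 < b ^ (-κ) := Real.rpow_pos_of_pos hb _
  have q2 : 0 < β ^ (-κ) := Real.rpow_pos_of_pos hβ _
  have q3 : 0 < T ^ (-κ) := Real.rpow_pos_of_pos hT0 _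
  have e4 : b ^ (-3 : ℝ) = b ^ (-2 : ℝ) * b⁻¹ := by
    rw [← Real.rpow_neg_one, ← Real.rpow_add hb]
    norm_num
  have e5 : T ^ (-(1 + κ)) = T⁻¹ * T ^ (-κ) := by
    rw [← Real.rpow_neg_one, ← Real.rpow_add hT0]
    congr 1
    ring
  rw [e4, e5]
  have i5 : (b ^ (-2 : ℝ) * β ^ (-2 : ℝ) * T ^ (-2 : ℝ) + b⁻¹ * β⁻¹ * T⁻¹) *
      (b ^ (-κ) * β ^ (-κ) * T ^ (-κ)) ≤ (b ^ (-2 : ℝ) * ((β ^ (-2 : ℝ) + β⁻¹) * T⁻¹)) *
      (b⁻¹ * β ^ (-κ) * T ^ (-κ)) := by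
    refine mul_le_mul i3 ?_ (by positivity) (by positivity)
    refine mul_le_mul_of_nonneg_right ?_ q3.le
    exact mul_le_mul_of_nonneg_right i4 q2.le
  refine i5.trans (le_of_eq ?_)
  ring

lemma Fs_par (A : Matrix ι ι ℝ) (T b β : ℝ) :
    Fs (A.transpose * A) (T * b * β) = gt A (b * β * T) + 1 := by
  unfold gt
  rw [Fs_eq, sub_add_cancel]
  congr 2
  ring

end Pool.Agent.H61.THC
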